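import Mathlib

set_option autoImplicit false

namespace Pool.Agent.Results.MP_06b6d5_co.Doob

/-- A graph is a core if each endomorphism is an automorphism. -/
def IsCore {V : Type} (X : SimpleGraph V) : Prop :=
  ∀ f : X →g X, ∃ e : X ≃g X, ∀ v, e v = f v

/-- The subgraph induced on `s` is a core of `X`. -/
def IsCoreOf {V : Type} (X : SimpleGraph V) (s : Set V) : Prop :=
  IsCore (X.induce s) ∧ Nonempty (X →g X.induce s)

/-- Distance-regular graphs. -/
def IsDistanceRegular {V : Type} (X : SimpleGraph V) : Prop :=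
  X.Connected ∧ ∃ b c : ℕ → ℕ, ∀ u v : V,
    {w | X.Adj v w ∧ X.dist u w + 1 = X.dist u v}.ncard = c (X.dist u v) ∧
    {w | X.Adj v w ∧ X.dist u w = X.dist u v + 1}.ncard = b (X.dist u v)

lemma exists_core {V : Type} [Fintype V] (X : SimpleGraph V) : ∃ s, IsCoreOf X s := by
  classical
  have hne : ∃ n, ∃ s : Set V, s.ncard = n ∧ Nonempty (X →g X.induce s) :=
    ⟨_, Set.univ, rfl, ⟨(SimpleGraph.induceUnivIso X).symm.toHom⟩⟩
  obtain ⟨s, hs, ⟨g⟩⟩ := Nat.find_spec hne
  refine ⟨s, ?_, ⟨g⟩⟩
  intro f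
  have hsurj : Function.Surjective f := by
    by_contra hns
    let t : Set V := Set.range (fun x : s => (f x).1)
    have ht : t.ncard < s.ncard := by
      apply Set.ncard_lt_ncard _ (Set.toFinite s)
      refine ⟨?_, ?_⟩
      · rintro _ ⟨x, rfl⟩; exact (f x).2
      · intro h
        apply hns
        intro y
        obtain ⟨x, hx⟩ := h y.2
        exact ⟨x, Subtype.ext hx⟩
    have : Nonempty (X →g X.induce t) :=
      ⟨⟨fun v => ⟨(f (g v)).1, ⟨g v, rfl⟩⟩, fun {a b} hab => f.map_rel (g.map_rel hab)⟩⟩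
    exact Nat.find_min hne (hs ▸ ht) ⟨t, rfl, this⟩
  have hbij : Function.Bijective f := ⟨Finite.injective_iff_surjective.2 hsurj, hsurj⟩
  let p : Equiv.Perm s := Equiv.ofBijective f hbij
  have hpow : ∀ n : ℕ, ∀ a b, (X.induce s).Adj a b → (X.induce s).Adj ((p ^ n) a) ((p ^ n) b) := by
    intro n
    induction n with
    | zero => intro a b h; simpa using h
    | succ n ih =>
      intro a b h
      rw [pow_succ', Equiv.Perm.mul_apply, Equiv.Perm.mul_apply]
      exact f.map_rel (ih a b h)
  have ho : 0 < orderOf p := orderOf_pos p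
  refine ⟨⟨p, ?_⟩, fun v => rfl⟩
  intro a b
  constructor
  · intro h
    have := hpow (orderOf p - 1) _ _ h
    rw [← Equiv.Perm.mul_apply, ← Equiv.Perm.mul_apply, ← pow_succ,
      Nat.sub_add_cancel ho, pow_orderOf_eq_one] at this
    simpa using this
  · intro h
    exact f.map_rel h

abbrev A := Fin 4 × Fin 4
abbrev W := A × A

/-- connection set of the Shrikhande graph -/
def S (a : A) : Bool := Nat.testBit 36922 (4 * a.1.val + a.2.val)
def r0 (a : A) : ℕ := if a = 0 then 0 else if S a then 1 else 2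
def T (x : W) : Bool := (S x.1 && decide (x.2 = 0)) || (decide (x.1 = 0) && S x.2)
def r (x : W) : ℕ := r0 x.1 + r0 x.2

lemma T_neg : ∀ x, T x = true → T (-x) = true := by decide +kernel
lemma T_zero : T 0 = false := by decide +kernel

/-- The Doob graph D(2,0), the Cartesian square of the Shrikhande graph. -/
def D : SimpleGraph W where
  Adj u v := T (v - u) = true
  symm := ⟨fun u v h => by have := T_neg _ h; rwa [neg_sub] at this⟩
  loopless := ⟨fun u h => by rw [sub_self, T_zero] at h; exact absurd h (by decide)⟩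

lemma r_le : ∀ t, T t = true → ∀ x, r (x + t) ≤ r x + 1 := by decide +kernel
lemma r_zero : ∀ x, r x = 0 → x = 0 := by decide +kernel

def L : Finset W := ⟨↑[((1,0),0), ((3,0),0), ((0,1),0), ((0,3),0), ((1,1),0), ((3,3),0),
  (0,(1,0)), (0,(3,0)), (0,(0,1)), (0,(0,3)), (0,(1,1)), ((0,(3,3)) : W)], by decide +kernel⟩
lemma hL : ∀ t, t ∈ L ↔ T t = true := by decide +kernel
lemma r_cnt : ∀ x, (L.filter fun t => r (x + t) + 1 = r x).card = r x ∧
    (L.filter fun t => r (x + t) = r x + 1).card = 12 - 3 * r x := by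
  decide +kernel
lemma r_step' : ∀ x, r x ≠ 0 → ∃ t ∈ L, r (x - t) + 1 = r x := by decide +kernel
lemma r_step (x : W) (h : r x ≠ 0) : ∃ t, T t = true ∧ r (x - t) + 1 = r x := by
  obtain ⟨t, ht, h⟩ := r_step' x h
  exact ⟨t, (hL t).1 ht, h⟩
lemma noK4' : ∀ x ∈ L, ∀ y ∈ L, T (y - x) = true →
    ∀ z ∈ L, ¬ (T (z - x) = true ∧ T (z - y) = true) := by decide +kernel
lemma noK4 : ∀ x, T x = true → ∀ y, T y = true → T (y - x) = true →
    ∀ z, T z = true → T (z - x) = true → T (z - y) = true → False :=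
  fun x hx y hy h z hz h1 h2 =>
    noK4' x ((hL x).2 hx) y ((hL y).2 hy) h z ((hL z).2 hz) ⟨h1, h2⟩
lemma T_sum : ∀ x, T x = true → T (x.1 + x.2, 0) = true := by decide +kernel

lemma walk_ge (u v : W) (p : D.Walk u v) : r (v - u) ≤ p.length := by
  induction p with
  | nil => rw [sub_self, SimpleGraph.Walk.length_nil]; exact le_of_eq (by decide)
  | @cons a b c h p ih =>
    have := r_le _ h (c - b)
    rw [SimpleGraph.Walk.length_cons]
    have e : c - b + (b - a) = c - a := by abel
    rw [e] at this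
    omega

lemma walk_ex (n : ℕ) : ∀ u v : W, r (v - u) = n → ∃ p : D.Walk u v, p.length = n := by
  induction n with
  | zero =>
    intro u v h
    have : v = u := sub_eq_zero.1 (r_zero _ h)
    subst this
    exact ⟨SimpleGraph.Walk.nil, rfl⟩
  | succ n ih =>
    intro u v h
    obtain ⟨t, ht, hr⟩ := r_step (v - u) (by omega)
    have e : v - u - t = v - (u + t) := by abel
    obtain ⟨p, hp⟩ := ih (u + t) v (by rw [← e]; omega)
    have ha : D.Adj u (u + t) := by
      show T (u + t - u) = true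
      rwa [add_sub_cancel_left]
    exact ⟨SimpleGraph.Walk.cons ha p, by simp [hp]⟩

lemma dist_eq (u v : W) : D.dist u v = r (v - u) := by
  obtain ⟨p, hp⟩ := walk_ex _ u v rfl
  apply le_antisymm
  · rw [← hp]; exact SimpleGraph.dist_le p
  · obtain ⟨q, hq⟩ := SimpleGraph.Reachable.exists_walk_length_eq_dist ⟨p⟩
    rw [← hq]; exact walk_ge u v q

lemma count (v : W) (P : W → Prop) [DecidablePred P] :
    {w | D.Adj v w ∧ P w}.ncard =
      (L.filter fun t => P (v + t)).card := by
  rw [← Set.ncard_coe_finset]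
  symm
  apply Set.ncard_congr (fun t _ => v + t)
  · intro t ht
    simp only [Finset.coe_filter, hL, Set.mem_ofPred_eq] at ht
    refine ⟨?_, ht.2⟩
    show T (v + t - v) = true
    rw [add_sub_cancel_left]; exact ht.1
  · intro a b _ _ h; exact add_left_cancel h
  · intro w hw
    refine ⟨w - v, ?_, by abel⟩
    simp only [Finset.coe_filter, hL, Set.mem_ofPred_eq]
    refine ⟨hw.1, ?_⟩
    have : v + (w - v) = w := by abel
    rw [this]; exact hw.2

lemma drg : IsDistanceRegular D := by
  refine ⟨⟨fun u v => ?_⟩, fun i => 12 - 3 * i, fun i => i, fun u v => ?_⟩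
  · obtain ⟨p, -⟩ := walk_ex _ u v rfl
    exact ⟨p⟩
  · simp only [dist_eq]
    have e : ∀ t, v + t - u = v - u + t := fun t => by abel
    constructor
    · rw [count v (fun w => r (w - u) + 1 = r (v - u))]
      simp only [e]
      exact (r_cnt (v - u)).1
    · rw [count v (fun w => r (w - u) = r (v - u) + 1)]
      simp only [e]
      exact (r_cnt (v - u)).2

/-- The folding endomorphism. -/
def fold : D →g D where
  toFun x := (x.1 + x.2, 0)
  map_rel' := by
    intro a b h
    have := T_sum _ h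
    show T ((b.1 + b.2, 0) - (a.1 + a.2, 0)) = true
    have e : ((b.1 + b.2, 0) - (a.1 + a.2, 0) : W) = ((b - a).1 + (b - a).2, 0) := by
      ext1
      · simp only [Prod.fst_sub, Prod.snd_sub]; abel
      · simp
    rw [e]; exact this

lemma not_core : ¬ IsCore D := by
  intro h
  obtain ⟨e, he⟩ := h fold
  have : e ((1, 0), 0) = e (0, (1, 0)) := by rw [he, he]; rfl
  exact absurd (e.injective this) (by decide)

lemma K4 (a b c d : W) (h1 : D.Adj a b) (h2 : D.Adj a c) (h3 : D.Adj a d) (h4 : D.Adj b c)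
    (h5 : D.Adj b d) (h6 : D.Adj c d) : False := by
  refine noK4 _ h1 _ h2 ?_ _ h3 ?_ ?_
  · have : c - a - (b - a) = c - b := by abel
    rw [this]; exact h4
  · have : d - a - (b - a) = d - b := by abel
    rw [this]; exact h5
  · have : d - a - (c - a) = d - c := by abel
    rw [this]; exact h6

theorem result : ∃ (V : Type) (_ : Fintype V) (X : SimpleGraph V),
    IsDistanceRegular X ∧ (∃ s, IsCoreOf X s) ∧
      ∀ s, IsCoreOf X s → IsEmpty (X ≃g X.induce s) ∧ X.induce s ≠ ⊤ := by
  refine ⟨W, inferInstance, D, drg, exists_core D, fun s hs => ⟨⟨fun e => ?_⟩, fun htop => ?_⟩⟩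
  · apply not_core
    intro f
    obtain ⟨g, hg⟩ := hs.1 (e.toHom.comp (f.comp e.symm.toHom))
    refine ⟨e.trans (g.trans e.symm), fun v => ?_⟩
    simp [hg]
  · obtain ⟨φ⟩ := hs.2
    have key : ∀ a b c d : W, D.Adj a b → D.Adj a c → D.Adj b c → D.Adj b d → D.Adj c d →
        φ a = φ d := by
      intro a b c d h1 h2 h3 h4 h5
      by_contra hne
      have h7 : ∀ x y : s, x ≠ y → (D.induce s).Adj x y := by
        intro x y h; rw [htop]; exact h
      have h6 := h7 _ _ hne
      exact K4 _ _ _ _ (φ.map_rel h1) (φ.map_rel h2) h6 (φ.map_rel h3) (φ.map_rel h4)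
        (φ.map_rel h5)
    have adj : ∀ a b : W, T (b - a) = true → D.Adj a b := fun _ _ h => h
    have k1 := key ((0,0),0) ((1,0),0) ((1,1),0) ((2,1),0) (adj _ _ (by decide))
      (adj _ _ (by decide)) (adj _ _ (by decide)) (adj _ _ (by decide)) (adj _ _ (by decide))
    have k2 := key ((0,0),0) ((0,1),0) ((1,1),0) ((1,2),0) (adj _ _ (by decide))
      (adj _ _ (by decide)) (adj _ _ (by decide)) (adj _ _ (by decide)) (adj _ _ (by decide))
    have k3 := key ((1,2),0) ((1,3),0) ((2,3),0) ((2,0),0) (adj _ _ (by decide))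
      (adj _ _ (by decide)) (adj _ _ (by decide)) (adj _ _ (by decide)) (adj _ _ (by decide))
    have h : D.Adj ((2,0),0) ((2,1),0) := adj _ _ (by decide)
    have h' := φ.map_rel h
    rw [← k3, ← k2, ← k1] at h'
    exact (D.induce s).irrefl h'

end Pool.Agent.Results.MP_06b6d5_co.Doob
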